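import Pool.Agent.Helper92.Ru.GoalsH

set_option autoImplicit false

open NumberField

namespace Pool.Agent.Helper73.Ru

open Pool.Agent.Helper92.Ru

variable {k : Type} [Field k] [NumberField k]

theorem height_le {T : Finset (FinitePlace k)} (C : SP k T → ℝ) (x : k) (hx : SInt T x)
    (h : ∀ v, nS v x ≤ C v) :
    Height.mulHeight₁ x ≤ (∏ v : InfinitePlace k, max (C (Sum.inl v)) 1) *
      ∏ w : {w : FinitePlace k // w ∈ T}, max (C (Sum.inr w)) 1 := by
  classical
  rw [NumberField.mulHeight₁_eq]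
  have hfp : (∏ᶠ v : FinitePlace k, max (v x) 1) = ∏ w ∈ T, max (w x) 1 := by
    apply finprod_eq_prod_of_mulSupport_subset
    intro w hw
    by_contra hT
    apply hw
    have : w ∉ T := hT
    simpa using hx w this
  rw [hfp, ← Finset.prod_coe_sort T]
  apply mul_le_mul
  · apply Finset.prod_le_prod
    · intro v _
      positivity
    · intro v _
      have hv : v x ^ v.mult ≤ C (Sum.inl v) := h (Sum.inl v)
      rcases le_total (v x) 1 with h1 | h1
      · rw [max_eq_right h1, one_pow]
        exact le_max_right _ _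
      · rw [max_eq_left h1]
        exact hv.trans (le_max_left _ _)
  · apply Finset.prod_le_prod
    · intro v _
      positivity
    · intro w _
      have hv : w.1 x ≤ C (Sum.inr w) := h (Sum.inr w)
      exact max_le_max hv le_rfl
  · apply Finset.prod_nonneg
    intro v _
    positivity
  · apply Finset.prod_nonneg
    intro v _
    positivity

/-- packet H10 -/
theorem boxFin : BoxFin := by
  intro k _ _ T ι _ _ _ A hA w
  classical
  set b : SP k T → ℝ := fun v => ∑ i : ι, ∑ j : ι, nS v ((A v)⁻¹ i j) * |w v j| with hb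
  set C : SP k T → ℝ := fun v => ((Finset.univ : Finset ι).card : ℝ) ^ 2 * b v with hC
  set B : ℝ := (∏ v : InfinitePlace k, max (C (Sum.inl v)) 1) *
      ∏ w : {w : FinitePlace k // w ∈ T}, max (C (Sum.inr w)) 1 with hB
  have hfin : Set.Finite (Set.pi Set.univ (fun _ : ι => {x : k | Height.mulHeight₁ x ≤ B})) :=
    Set.Finite.pi fun _ => NumberField.finite_setOfPred_mulHeight₁_le k B
  refine hfin.subset ?_
  intro x hx i _
  obtain ⟨hS, hbox⟩ := hx
  show Height.mulHeight₁ (x i) ≤ B
  refine height_le C (x i) (hS i) fun v => ?_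
  have hinv : (A v)⁻¹ * A v = 1 := Matrix.nonsing_inv_mul _ (isUnit_iff_ne_zero.2 (hA v))
  have hxi : x i = ∑ j, (A v)⁻¹ i j * (A v).mulVec x j := by
    have h1 : (A v)⁻¹.mulVec ((A v).mulVec x) = x := by
      rw [Matrix.mulVec_mulVec, hinv, Matrix.one_mulVec]
    conv_lhs => rw [← h1]
    rfl
  rw [hxi]
  refine nS_sum_le v Finset.univ _ (b v) ?_
  intro j _
  rw [nS_mul]
  have h1 : nS v ((A v)⁻¹ i j) * nS v ((A v).mulVec x j) ≤ nS v ((A v)⁻¹ i j) * |w v j| :=
    mul_le_mul_of_nonneg_left ((hbox v j).trans (le_abs_self _)) (nS_nonneg v _)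
  refine h1.trans ?_
  have h2 : nS v ((A v)⁻¹ i j) * |w v j| ≤ ∑ j, nS v ((A v)⁻¹ i j) * |w v j| :=
    Finset.single_le_sum (f := fun j => nS v ((A v)⁻¹ i j) * |w v j|)
      (fun j _ => mul_nonneg (nS_nonneg v _) (abs_nonneg _)) (Finset.mem_univ j)
  refine h2.trans ?_
  exact Finset.single_le_sum (f := fun i => ∑ j, nS v ((A v)⁻¹ i j) * |w v j|)
      (fun i _ => Finset.sum_nonneg fun j _ => mul_nonneg (nS_nonneg v _) (abs_nonneg _))
      (Finset.mem_univ i)

end Pool.Agent.Helper73.Ru
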